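import Pool.Agent.Q266.HamAcc

/-!
The pair-degree threshold for `(2,2)`-acceptable Hamilton cycles grows at least linearly.
-/

set_option autoImplicit false

namespace Pool.Agent.Results.MP_626dc7_co.LinearGrowth

open Pool.Agent.Q266.HamAcc

theorem result : ∃ c : ℝ, 0 < c ∧ ∀ n : ℕ, 4 ≤ n → c * (n : ℝ) ≤ (m2 n : ℝ) := by
  refine ⟨1 / 1000000, by norm_num, fun n hn => ?_⟩
  have h1 := m2_bound n hn
  have h3 : (n : ℝ) ≤ 1000000 * (m2 n : ℝ) := by exact_mod_cast h1
  linarith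

end Pool.Agent.Results.MP_626dc7_co.LinearGrowth
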